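import Pool.Agent.H529Z.Half.Main

namespace Pool.Agent.Results.MP_0cbb3c_lc.AFailsUnderGCH
open Cardinal

universe u

theorem result (hG : ∀ ν : Cardinal.{u}, ℵ₀ ≤ ν → 2 ^ ν = Order.succ ν)
    (κ : Cardinal.{u}) (hκ : κ.IsSingular) : ¬ Pool.Agent.H529Z.Half.R κ :=
  Pool.Agent.H529Z.Half.not_R κ hκ (Pool.Agent.H529Z.Half.isStrongLimit_of_gch hG hκ)
    (hG κ hκ.aleph0_le)

end Pool.Agent.Results.MP_0cbb3c_lc.AFailsUnderGCH
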